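import Mathlib

/-!
# Project LR (helper692), problem MP_c10eee_an

Solutions of `Δ u = f(u)` in the unit ball of `ℝ³` which are homeomorphic to a one-dimensional
solution, but are not nearly isometric to a one-dimensional solution on any smaller ball.
Definitions and statements of the parts.
-/

set_option autoImplicit false

namespace Pool.Agent.N692.LR

open Set Metric Filter Topology
open scoped Laplacian InnerProductSpace ContDiff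

/-- Euclidean three-space. -/
abbrev E3 := EuclideanSpace ℝ (Fin 3)

/-- One-dimensional solutions: `V'' = f(V)` on the whole line. -/
def OneDim (f V : ℝ → ℝ) : Prop :=
  ∃ V' : ℝ → ℝ, (∀ s, HasDerivAt V (V' s) s) ∧ ∀ s, HasDerivAt V' (f (V s)) s

/-- `c |x - y| ≤ |Φ x - Φ y| ≤ C |x - y|` on the ball of radius `δ`. -/
def BiLip (c C δ : ℝ) (Φ : E3 → E3) : Prop :=
  ∀ x ∈ ball (0 : E3) δ, ∀ y ∈ ball (0 : E3) δ,
    c * dist x y ≤ dist (Φ x) (Φ y) ∧ dist (Φ x) (Φ y) ≤ C * dist x y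

/-! The polynomials (`r = x² + y²`, `s = z²`). -/

/-- real part of the multiplier -/
noncomputable def pA (r s : ℝ) : ℝ := 4 * s - 4 * s ^ 2 - r + 6 * r * s - r ^ 2 / 2

/-- imaginary part of the multiplier, divided by `z` -/
noncomputable def pB (r s : ℝ) : ℝ :=
  1 - 6 * s + s ^ 2 + 9 / 2 * r - 5 / 2 * s * r + 5 / 8 * r ^ 2

/-- `u₀² + v₀²` -/
noncomputable def pM (r s : ℝ) : ℝ := r * (pA r s ^ 2 + s * pB r s ^ 2)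

/-- `(1 - (4 / 9) pM (1 - s) s) / s` -/
noncomputable def p1 (s : ℝ) : ℝ :=
  (47 + 37 * s - 42 * s ^ 2 + 570 * s ^ 3 - 1557 * s ^ 4 + 1089 * s ^ 5) / 144

/-- The harmonic polynomial. -/
noncomputable def u0 (x : E3) : ℝ :=
  x 0 * pA (x 0 ^ 2 + x 1 ^ 2) (x 2 ^ 2) - x 1 * x 2 * pB (x 0 ^ 2 + x 1 ^ 2) (x 2 ^ 2)

/-- The second coordinate. -/
noncomputable def v0 (x : E3) : ℝ :=
  x 0 * x 2 * pB (x 0 ^ 2 + x 1 ^ 2) (x 2 ^ 2) + x 1 * pA (x 0 ^ 2 + x 1 ^ 2) (x 2 ^ 2)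

/-- LR/LAP: `m + η u₀` is smooth and harmonic. -/
def S_LAP : Prop :=
  ∀ m η : ℝ, ContDiff ℝ ω (fun x : E3 => m + η * u0 x) ∧
    ∀ x : E3, Δ (fun x : E3 => m + η * u0 x) x = 0

/-- LR/NEG: no representation near the origin. -/
def S_NEG : Prop :=
  ∀ (f : ℝ → ℝ) (K : ℝ), (∀ t, K < t → f t = 0) → ∀ m η : ℝ, K < m → η ≠ 0 →
    ∀ δ c C : ℝ, 0 < δ → 0 < c → ∀ (V : ℝ → ℝ) (a : E3) (Φ : E3 → E3), OneDim f V → ‖a‖ = 1 →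
      BiLip c C δ Φ → ¬ ∀ x ∈ ball (0 : E3) δ, m + η * u0 x = V (inner ℝ (Φ x) a)

/-- LR/ODE: a one-dimensional solution which is affine on `[-1, ∞)`. -/
def S_ODE : Prop :=
  ∀ f : ℝ → ℝ, Continuous f → HasCompactSupport f → (∀ t, 0 ≤ f t) →
    ∃ K η : ℝ, 0 < η ∧ (∀ t, K < t → f t = 0) ∧ ∃ V : ℝ → ℝ, OneDim f V ∧
      ∀ s, -1 ≤ s → V s = (K + 1 + 3 / 2 * η) + 3 / 2 * η * s

/-- LR/HOM: the homeomorphism of the closed unit ball. -/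
def S_HOM : Prop :=
  ∃ Φ : closedBall (0 : E3) 1 ≃ₜ closedBall (0 : E3) 1,
    ∀ x, (Φ x : E3) 0 = 2 / 3 * u0 (x : E3)

/-- LR/MAIN. -/
def S_MAIN : Prop :=
  ∀ f : ℝ → ℝ, ContDiff ℝ ∞ f → HasCompactSupport f → (∀ t, 0 ≤ f t) →
    ∃ u : E3 → ℝ, ContDiff ℝ ω u ∧ (∀ x ∈ ball (0 : E3) 1, Δ u x = f (u x)) ∧
      (∃ (V₁ : ℝ → ℝ) (a₁ : E3) (Φ₁ : closedBall (0 : E3) 1 ≃ₜ closedBall (0 : E3) 1),
        OneDim f V₁ ∧ ‖a₁‖ = 1 ∧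
        ∀ x : closedBall (0 : E3) 1, u x = V₁ (inner ℝ (Φ₁ x : E3) a₁)) ∧
      ∀ δ c C : ℝ, 0 < δ → 0 < c →
        ¬ ∃ (V₂ : ℝ → ℝ) (a₂ : E3) (Φ₂ : E3 → E3), OneDim f V₂ ∧ ‖a₂‖ = 1 ∧ BiLip c C δ Φ₂ ∧
          ∀ x ∈ ball (0 : E3) δ, u x = V₂ (inner ℝ (Φ₂ x) a₂)

end Pool.Agent.N692.LR
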