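import Pool.Agent.N692.LR.Defs

/-!
# Project LR (helper692), problem MP_c10eee_an: the homeomorphism
-/

set_option autoImplicit false

namespace Pool.Agent.N692.LR

open Set Metric Filter Topology

/-- the derivative of `pM` in the first variable -/
noncomputable def pD (r s : ℝ) : ℝ :=
  s + 4 * s ^ 2 + 6 * s ^ 3 + 4 * s ^ 4 + s ^ 5 + 2 * r * s - 6 * r * s ^ 2 - 18 * r * s ^ 3 -
    10 * r * s ^ 4 + 3 * r ^ 2 + 33 / 2 * r ^ 2 * s + 30 * r ^ 2 * s ^ 2 + 45 / 2 * r ^ 2 * s ^ 3 +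
    4 * r ^ 3 - 3 / 2 * r ^ 3 * s - 25 / 2 * r ^ 3 * s ^ 2 + 5 / 4 * r ^ 4 + 125 / 64 * r ^ 4 * s

theorem hasDerivAt_pM (r s : ℝ) : HasDerivAt (fun r => pM r s) (pD r s) r := by
  have h1 : HasDerivAt (fun r : ℝ => pA r s) (-1 + 6 * s - r) r := by
    unfold pA
    have := ((((hasDerivAt_const r (4 * s - 4 * s ^ 2)).sub (hasDerivAt_id r)).add
      (((hasDerivAt_id r).const_mul 6).mul_const s)).sub
        (((hasDerivAt_id r).pow 2).div_const 2))
    exact this.congr_deriv (by simp only [id]; push_cast; ring)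
  have h2 : HasDerivAt (fun r : ℝ => pB r s) (9 / 2 - 5 / 2 * s + 5 / 4 * r) r := by
    unfold pB
    have := (((hasDerivAt_const r (1 - 6 * s + s ^ 2)).add ((hasDerivAt_id r).const_mul (9 / 2))).sub
      ((hasDerivAt_id r).const_mul (5 / 2 * s))).add (((hasDerivAt_id r).pow 2).const_mul (5 / 8))
    exact this.congr_deriv (by simp only [id]; push_cast; ring)
  have h3 := (hasDerivAt_id r).mul ((h1.pow 2).add ((h2.pow 2).const_mul s))
  unfold pM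
  refine h3.congr_deriv ?_
  simp only [Pi.add_apply, Pi.pow_apply, pD, pA, pB, id]
  push_cast
  ring

theorem pD_ge {r s : ℝ} (hr : 0 ≤ r) (hs : 0 ≤ s) (h : r + s ≤ 1) : r ^ 2 ≤ pD r s := by
  obtain ⟨t, ht⟩ : ∃ t, t = 1 - r - s := ⟨_, rfl⟩
  have ht0 : 0 ≤ t := by linarith
  have e : pD r s - r ^ 2 = s * t ^ 4 + 8 * s ^ 2 * t ^ 3 + 24 * s ^ 3 * t ^ 2 +
      32 * s ^ 4 * t + 16 * s ^ 5 + 6 * r * s * t ^ 3 + 24 * r * s ^ 2 * t ^ 2 +
      24 * r * s ^ 3 * t + 2 * r ^ 2 * t ^ 3 + 69 / 2 * r ^ 2 * s * t ^ 2 +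
      93 * r ^ 2 * s ^ 2 * t + 71 * r ^ 2 * s ^ 3 + 10 * r ^ 3 * t ^ 2 +
      123 / 2 * r ^ 3 * s * t + 67 * r ^ 3 * s ^ 2 + 61 / 4 * r ^ 4 * t +
      2253 / 64 * r ^ 4 * s + 29 / 4 * r ^ 5 := by
    subst ht
    unfold pD
    ring
  have e2 : 0 ≤ pD r s - r ^ 2 := by
    rw [e]
    positivity
  linarith

theorem pM_strictMono {s : ℝ} (hs : 0 ≤ s) : StrictMonoOn (fun r => pM r s) (Icc 0 (1 - s)) := by
  apply strictMonoOn_of_deriv_pos (convex_Icc _ _)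
  · exact fun r _ => (hasDerivAt_pM r s).continuousAt.continuousWithinAt
  · intro r hr
    rw [interior_Icc] at hr
    rw [(hasDerivAt_pM r s).deriv]
    have h1 : 0 < r := hr.1
    have := pD_ge h1.le hs (by linarith [hr.2])
    have h2 : 0 < r ^ 2 := by positivity
    linarith

/-- `p(s) = s p1(s)` -/
noncomputable def pp (s : ℝ) : ℝ := s * p1 s

theorem pM_edge (s : ℝ) : pM (1 - s) s = 9 / 4 * (1 - pp s) := by
  unfold pM pp p1 pA pB
  ring

theorem poly_pos {s : ℝ} (h0 : 0 ≤ s) (h1 : s ≤ 1) :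
    0 < 47 + 74 * s - 126 * s ^ 2 + 2280 * s ^ 3 - 7785 * s ^ 4 + 6534 * s ^ 5 := by
  have e : 47 + 74 * s - 126 * s ^ 2 + 2280 * s ^ 3 - 7785 * s ^ 4 + 6534 * s ^ 5 =
      47 + 74 * s - 126 * s ^ 2 + s ^ 3 * (6534 * s ^ 2 - 7785 * s + 2280) := by ring
  rcases le_total s (4 / 5) with h | h
  · have h2 : -39 ≤ 6534 * s ^ 2 - 7785 * s + 2280 := by nlinarith [sq_nonneg (s - 7785 / 13068)]
    have h3 : 0 ≤ s ^ 3 := by positivity
    have h4 : s ^ 3 ≤ 16 / 25 * s := by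
      have : s ^ 2 ≤ 16 / 25 := by nlinarith
      nlinarith
    have h5 : s ^ 3 * (-39) ≤ s ^ 3 * (6534 * s ^ 2 - 7785 * s + 2280) :=
      mul_le_mul_of_nonneg_left h2 h3
    rw [e]
    nlinarith
  · have h2 : 200 ≤ 6534 * s ^ 2 - 7785 * s + 2280 := by nlinarith
    have h3 : 64 / 125 ≤ s ^ 3 := by
      have : (4 / 5 : ℝ) ^ 3 ≤ s ^ 3 := pow_le_pow_left₀ (by norm_num) h 3
      norm_num at this
      linarith
    have h5 : 64 / 125 * 200 ≤ s ^ 3 * (6534 * s ^ 2 - 7785 * s + 2280) :=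
      mul_le_mul h3 h2 (by norm_num) (by positivity)
    rw [e]
    nlinarith

theorem hasDerivAt_pp (s : ℝ) : HasDerivAt pp
    ((47 + 74 * s - 126 * s ^ 2 + 2280 * s ^ 3 - 7785 * s ^ 4 + 6534 * s ^ 5) / 144) s := by
  have h : pp = fun s => (47 * s + 37 * s ^ 2 - 42 * s ^ 3 + 570 * s ^ 4 - 1557 * s ^ 5 +
      1089 * s ^ 6) / 144 := by
    funext s
    unfold pp p1
    ring
  rw [h]
  have := (((((((hasDerivAt_id s).const_mul 47).add (((hasDerivAt_id s).pow 2).const_mul 37)).sub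
    (((hasDerivAt_id s).pow 3).const_mul 42)).add (((hasDerivAt_id s).pow 4).const_mul 570)).sub
    (((hasDerivAt_id s).pow 5).const_mul 1557)).add
    (((hasDerivAt_id s).pow 6).const_mul 1089)).div_const 144
  exact this.congr_deriv (by simp only [id]; push_cast; ring)

theorem pp_strictMono : StrictMonoOn pp (Icc 0 1) := by
  apply strictMonoOn_of_deriv_pos (convex_Icc _ _)
  · exact fun s _ => (hasDerivAt_pp s).continuousAt.continuousWithinAt
  · intro s hs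
    rw [interior_Icc] at hs
    rw [(hasDerivAt_pp s).deriv]
    have := poly_pos hs.1.le hs.2.le
    positivity

theorem pp_zero : pp 0 = 0 := by simp [pp]

theorem p1_one : p1 1 = 1 := by unfold p1; norm_num

theorem p1_pos {s : ℝ} (h0 : 0 ≤ s) (h1 : s ≤ 1) : 0 < p1 s := by
  rcases h0.eq_or_lt with h | h
  · rw [← h]
    unfold p1
    norm_num
  · have h2 : pp 0 < pp s := pp_strictMono ⟨le_rfl, zero_le_one⟩ ⟨h0, h1⟩ h
    rw [pp_zero] at h2
    unfold pp at h2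
    exact (mul_pos_iff_of_pos_left h).1 h2

/-- the third coordinate -/
noncomputable def gg (z : ℝ) : ℝ := z * Real.sqrt (p1 (z ^ 2))

theorem gg_continuous : Continuous gg := by
  unfold gg p1
  fun_prop

theorem sq_mem {z : ℝ} (hz : z ∈ Icc (-1 : ℝ) 1) : 0 ≤ z ^ 2 ∧ z ^ 2 ≤ 1 := by
  refine ⟨sq_nonneg z, ?_⟩
  nlinarith [hz.1, hz.2]

theorem gg_sq {z : ℝ} (hz : z ∈ Icc (-1 : ℝ) 1) : gg z ^ 2 = pp (z ^ 2) := by
  unfold gg pp
  rw [mul_pow, Real.sq_sqrt (p1_pos (sq_mem hz).1 (sq_mem hz).2).le]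

theorem gg_inj {z w : ℝ} (hz : z ∈ Icc (-1 : ℝ) 1) (hw : w ∈ Icc (-1 : ℝ) 1)
    (h : gg z = gg w) : z = w := by
  have h1 : pp (z ^ 2) = pp (w ^ 2) := by rw [← gg_sq hz, ← gg_sq hw, h]
  have h2 : z ^ 2 = w ^ 2 := pp_strictMono.injOn (sq_mem hz) (sq_mem hw) h1
  unfold gg at h
  rw [h2] at h
  have h3 : 0 < Real.sqrt (p1 (w ^ 2)) := Real.sqrt_pos.2 (p1_pos (sq_mem hw).1 (sq_mem hw).2)
  exact mul_right_cancel₀ h3.ne' h

theorem gg_surj {w : ℝ} (hw : w ∈ Icc (-1 : ℝ) 1) : ∃ z ∈ Icc (-1 : ℝ) 1, gg z = w := by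
  have h1 : gg (-1) = -1 := by
    unfold gg
    rw [show ((-1 : ℝ)) ^ 2 = 1 by norm_num, p1_one, Real.sqrt_one, mul_one]
  have h2 : gg 1 = 1 := by
    unfold gg
    rw [one_pow, p1_one, Real.sqrt_one, mul_one]
  have h := intermediate_value_Icc (show (-1 : ℝ) ≤ 1 by norm_num) gg_continuous.continuousOn
  rw [h1, h2] at h
  obtain ⟨z, hz, hzw⟩ := h hw
  exact ⟨z, hz, hzw⟩

theorem mem_ball_iff (x : E3) :
    x ∈ closedBall (0 : E3) 1 ↔ x 0 ^ 2 + x 1 ^ 2 + x 2 ^ 2 ≤ 1 := by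
  rw [mem_closedBall_zero_iff]
  have h1 : ‖x‖ ^ 2 = x 0 ^ 2 + x 1 ^ 2 + x 2 ^ 2 := by
    rw [EuclideanSpace.norm_sq_eq, Fin.sum_univ_three]
    simp only [Real.norm_eq_abs, sq_abs]
  rw [← h1]
  constructor
  · intro h
    nlinarith [norm_nonneg x]
  · intro h
    nlinarith [norm_nonneg x]

/-- the map -/
noncomputable def Ph (x : E3) : E3 := !₂[2 / 3 * u0 x, 2 / 3 * v0 x, gg (x 2)]

theorem Ph_0 (x : E3) : Ph x 0 = 2 / 3 * u0 x := rfl
theorem Ph_1 (x : E3) : Ph x 1 = 2 / 3 * v0 x := rfl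
theorem Ph_2 (x : E3) : Ph x 2 = gg (x 2) := rfl

theorem Ph_continuous : Continuous Ph := by
  have h1 : Continuous (fun x : E3 => 2 / 3 * u0 x) := by
    unfold u0 pA pB
    fun_prop
  have h2 : Continuous (fun x : E3 => 2 / 3 * v0 x) := by
    unfold v0 pA pB
    fun_prop
  have h3 : Continuous (fun x : E3 => gg (x 2)) := gg_continuous.comp (by fun_prop)
  unfold Ph
  refine (PiLp.continuous_toLp 2 _).comp (continuous_pi fun i => ?_)
  fin_cases i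
  · exact h1
  · exact h2
  · exact h3

theorem uv_sq (x : E3) :
    u0 x ^ 2 + v0 x ^ 2 = pM (x 0 ^ 2 + x 1 ^ 2) (x 2 ^ 2) := by
  unfold u0 v0 pM
  ring

theorem coord {x : E3} (hx : x ∈ closedBall (0 : E3) 1) :
    x 0 ^ 2 + x 1 ^ 2 ∈ Icc 0 (1 - x 2 ^ 2) ∧ x 2 ∈ Icc (-1 : ℝ) 1 := by
  rw [mem_ball_iff] at hx
  refine ⟨⟨by positivity, by linarith⟩, ?_, ?_⟩ <;> nlinarith [sq_nonneg (x 0), sq_nonneg (x 1)]

theorem Ph_mapsTo : MapsTo Ph (closedBall (0 : E3) 1) (closedBall (0 : E3) 1) := by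
  intro x hx
  obtain ⟨h1, h2⟩ := coord hx
  rw [mem_ball_iff, Ph_0, Ph_1, Ph_2, gg_sq h2]
  have h3 := uv_sq x
  have h4 : pM (x 0 ^ 2 + x 1 ^ 2) (x 2 ^ 2) ≤ pM (1 - x 2 ^ 2) (x 2 ^ 2) :=
    (pM_strictMono (sq_nonneg (x 2))).monotoneOn h1 ⟨h1.1.trans h1.2, le_rfl⟩ h1.2
  rw [pM_edge] at h4
  nlinarith

theorem q_pos {r s : ℝ} (hr : 0 < r) (hs : 0 ≤ s) (h : r ≤ 1 - s) :
    0 < pA r s ^ 2 + s * pB r s ^ 2 := by
  have h1 : pM 0 s < pM r s :=
    pM_strictMono hs ⟨le_rfl, hr.le.trans h⟩ ⟨hr.le, h⟩ hr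
  have h0 : pM 0 s = 0 := by simp [pM]
  rw [h0] at h1
  unfold pM at h1
  exact (mul_pos_iff_of_pos_left hr).1 h1

theorem Ph_injOn : InjOn Ph (closedBall (0 : E3) 1) := by
  intro x hx y hy hxy
  obtain ⟨hx1, hx2⟩ := coord hx
  obtain ⟨hy1, hy2⟩ := coord hy
  have e0 : u0 x = u0 y := by
    have := congrArg (fun v : E3 => v 0) hxy
    simp only [Ph_0] at this
    linarith
  have e1 : v0 x = v0 y := by
    have := congrArg (fun v : E3 => v 1) hxy
    simp only [Ph_1] at this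
    linarith
  have e2 : x 2 = y 2 := by
    have := congrArg (fun v : E3 => v 2) hxy
    simp only [Ph_2] at this
    exact gg_inj hx2 hy2 this
  have e3 : x 0 ^ 2 + x 1 ^ 2 = y 0 ^ 2 + y 1 ^ 2 := by
    have h1 := uv_sq x
    have h2 := uv_sq y
    rw [e0, e1, h2] at h1
    rw [← e2] at h1 hy1
    exact ((pM_strictMono (sq_nonneg (x 2))).injOn hy1 hx1 h1).symm
  have e01 : x 0 = y 0 ∧ x 1 = y 1 := by
    rcases hx1.1.eq_or_lt with h | h
    · have h2 : y 0 ^ 2 + y 1 ^ 2 = 0 := by rw [← e3, ← h]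
      have a1 : x 0 = 0 := by nlinarith [sq_nonneg (x 0), sq_nonneg (x 1)]
      have a2 : x 1 = 0 := by nlinarith [sq_nonneg (x 0), sq_nonneg (x 1)]
      have a3 : y 0 = 0 := by nlinarith [sq_nonneg (y 0), sq_nonneg (y 1)]
      have a4 : y 1 = 0 := by nlinarith [sq_nonneg (y 0), sq_nonneg (y 1)]
      rw [a1, a2, a3, a4]
      exact ⟨rfl, rfl⟩
    · have hq := q_pos h (sq_nonneg (x 2)) hx1.2
      unfold u0 at e0
      unfold v0 at e1
      rw [← e3, ← e2] at e0 e1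
      set a := pA (x 0 ^ 2 + x 1 ^ 2) (x 2 ^ 2)
      set b := pB (x 0 ^ 2 + x 1 ^ 2) (x 2 ^ 2)
      have c0 : (x 0 - y 0) * (a ^ 2 + x 2 ^ 2 * b ^ 2) = 0 := by
        linear_combination a * e0 + x 2 * b * e1
      have c1 : (x 1 - y 1) * (a ^ 2 + x 2 ^ 2 * b ^ 2) = 0 := by
        linear_combination a * e1 - x 2 * b * e0
      constructor
      · rcases mul_eq_zero.1 c0 with h | h
        · linarith
        · exact absurd h hq.ne'
      · rcases mul_eq_zero.1 c1 with h | h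
        · linarith
        · exact absurd h hq.ne'
  ext i
  fin_cases i
  · exact e01.1
  · exact e01.2
  · exact e2

theorem Ph_surjOn : SurjOn Ph (closedBall (0 : E3) 1) (closedBall (0 : E3) 1) := by
  intro w hw
  obtain ⟨hw1, hw2⟩ := coord hw
  obtain ⟨z, hz, hzw⟩ := gg_surj hw2
  have hz2 := sq_mem hz
  have hw3 : pp (z ^ 2) = w 2 ^ 2 := by rw [← gg_sq hz, hzw]
  have hrange := intermediate_value_Icc (show (0 : ℝ) ≤ 1 - z ^ 2 by linarith [hz2.2])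
    (f := fun r => pM r (z ^ 2))
    (fun r _ => (hasDerivAt_pM r (z ^ 2)).continuousAt.continuousWithinAt)
  have h0 : pM 0 (z ^ 2) = 0 := by simp [pM]
  rw [h0, pM_edge, hw3] at hrange
  obtain ⟨r, hr, hrw⟩ := hrange (show 9 / 4 * (w 0 ^ 2 + w 1 ^ 2) ∈ Icc 0 (9 / 4 * (1 - w 2 ^ 2)) from
    ⟨by positivity, by linarith [hw1.2]⟩)
  simp only at hrw
  -- the point
  have key : ∃ x y : ℝ, x ^ 2 + y ^ 2 = r ∧ x * pA r (z ^ 2) - y * z * pB r (z ^ 2) = 3 / 2 * w 0 ∧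
      x * z * pB r (z ^ 2) + y * pA r (z ^ 2) = 3 / 2 * w 1 := by
    rcases hr.1.eq_or_lt with h | h
    · rw [← h] at hrw
      rw [h0] at hrw
      have a1 : w 0 = 0 := by nlinarith [sq_nonneg (w 0), sq_nonneg (w 1)]
      have a2 : w 1 = 0 := by nlinarith [sq_nonneg (w 0), sq_nonneg (w 1)]
      refine ⟨0, 0, ?_, ?_, ?_⟩
      · rw [← h]; norm_num
      · rw [a1]; ring
      · rw [a2]; ring
    · have hq := q_pos h (sq_nonneg z) hr.2
      unfold pM at hrw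
      set a := pA r (z ^ 2)
      set b := pB r (z ^ 2)
      set Q := a ^ 2 + z ^ 2 * b ^ 2 with hQ
      refine ⟨3 / 2 * (w 0 * a + w 1 * (z * b)) / Q, 3 / 2 * (w 1 * a - w 0 * (z * b)) / Q,
        ?_, ?_, ?_⟩
      · have e1 : (3 / 2 * (w 0 * a + w 1 * (z * b)) / Q) ^ 2 +
            (3 / 2 * (w 1 * a - w 0 * (z * b)) / Q) ^ 2 = (9 / 4 * (w 0 ^ 2 + w 1 ^ 2)) / Q := by
          field_simp
          rw [hQ]
          ring
        rw [e1, ← hrw, mul_div_assoc, div_self hq.ne', mul_one]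
      · field_simp
        rw [hQ]
        ring
      · field_simp
        rw [hQ]
        ring
  obtain ⟨x, y, hxy, hu, hv⟩ := key
  refine ⟨!₂[x, y, z], ?_, ?_⟩
  · rw [mem_ball_iff]
    show x ^ 2 + y ^ 2 + z ^ 2 ≤ 1
    rw [hxy]
    linarith [hr.2]
  · ext i
    fin_cases i
    · show 2 / 3 * u0 !₂[x, y, z] = w 0
      have : u0 !₂[x, y, z] = x * pA (x ^ 2 + y ^ 2) (z ^ 2) - y * z * pB (x ^ 2 + y ^ 2) (z ^ 2) :=
        rfl
      rw [this, hxy, hu]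
      ring
    · show 2 / 3 * v0 !₂[x, y, z] = w 1
      have : v0 !₂[x, y, z] = x * z * pB (x ^ 2 + y ^ 2) (z ^ 2) + y * pA (x ^ 2 + y ^ 2) (z ^ 2) :=
        rfl
      rw [this, hxy, hv]
      ring
    · exact hzw

theorem t_HOM : S_HOM := by
  let F : closedBall (0 : E3) 1 → closedBall (0 : E3) 1 := Ph_mapsTo.restrict _ _ _
  have hF : Continuous F := Ph_continuous.continuousOn.mapsToRestrict Ph_mapsTo
  have hb : Function.Bijective F := by
    constructor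
    · intro x y h
      apply Subtype.ext
      exact Ph_injOn x.2 y.2 (congrArg Subtype.val h)
    · intro w
      obtain ⟨x, hx, hxw⟩ := Ph_surjOn w.2
      exact ⟨⟨x, hx⟩, Subtype.ext hxw⟩
  have : CompactSpace (closedBall (0 : E3) 1) :=
    isCompact_iff_compactSpace.1 (isCompact_closedBall _ _)
  refine ⟨Continuous.homeoOfEquivCompactToT2 (f := Equiv.ofBijective F hb) hF, fun x => ?_⟩
  rfl

end Pool.Agent.N692.LR
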